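import Pool.Agent.T6.H57.MG.Main

/-!
# Square root lower growth for minimal graphs

A positive solution `u` of the minimal surface equation in a plane domain `D`, vanishing on
`∂D`, satisfies `M(r) ≥ C √r` for all large `r` as soon as every large circle `|z| = r` meets the
complement of `D`; in particular this holds when `D` is bounded by a Jordan arc (a proper
injective image of the line).
-/

set_option autoImplicit false

open Set Filter Topology

namespace Pool.Agent.Results.MP_41eeae_an.SquareRootGrowth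

/-- `∂u/∂x` -/
noncomputable def ux (u : ℂ → ℝ) (z : ℂ) : ℝ := fderiv ℝ u z 1

/-- `∂u/∂y` -/
noncomputable def uy (u : ℂ → ℝ) (z : ℂ) : ℝ := fderiv ℝ u z Complex.I

/-- `√(1 + |∇u|²)` -/
noncomputable def W (u : ℂ → ℝ) (z : ℂ) : ℝ := √(1 + (ux u z ^ 2 + uy u z ^ 2))

/-- `u` is a solution of the problem `(∗)` in `D`: `u ∈ C²(D) ∩ C(closure D)` satisfies the
minimal surface equation `div (∇u / √(1 + |∇u|²)) = 0` in `D`, `u > 0` in `D` and `u = 0` on the
boundary of `D`. -/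
structure IsSolution (D : Set ℂ) (u : ℂ → ℝ) : Prop where
  smooth : ContDiffOn ℝ 2 u D
  cont : ContinuousOn u (closure D)
  mse : ∀ z ∈ D, fderiv ℝ (fun w => ux u w / W u w) z 1
    + fderiv ℝ (fun w => uy u w / W u w) z Complex.I = 0
  pos : ∀ z ∈ D, 0 < u z
  bdry : ∀ z ∈ frontier D, u z = 0

/-- `γ` parametrises a Jordan arc: it is continuous and injective on the line and `|γ(t)| → ∞`
as `t → ±∞`. -/
structure IsJordanArc (γ : ℝ → ℂ) : Prop where
  cont : Continuous γ
  inj : Function.Injective γ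
  top : Tendsto (fun t => ‖γ t‖) atTop atTop
  bot : Tendsto (fun t => ‖γ t‖) atBot atTop

/-- There are constants `C > 0`, `r₀ > 0` such that for every `r > r₀` the maximum
`M(r) = max {u(z) : z ∈ D, |z| = r}` exists and is at least `C √r`. -/
def HasSqrtGrowth (D : Set ℂ) (u : ℂ → ℝ) : Prop :=
  ∃ C > 0, ∃ r₀ > 0, ∀ r, r₀ < r → ∃ M, IsGreatest (u '' (D ∩ {z | ‖z‖ = r})) M ∧ C * √r ≤ M

/-- The bound holds for every nonempty open set `D` such that all large circles meet the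
complement of `D`. -/
theorem general (D : Set ℂ) (hD : IsOpen D) (hne : D.Nonempty) (ρ : ℝ)
    (hcirc : ∀ r, ρ ≤ r → ∃ z, ‖z‖ = r ∧ z ∉ D) (u : ℂ → ℝ) (hu : IsSolution D u) :
    HasSqrtGrowth D u := by
  have h : T6.H57.MG.IsSolution D u := ⟨hu.smooth, hu.cont, hu.mse, hu.pos, hu.bdry⟩
  obtain ⟨C, hC, r0, hr0, hmain⟩ := T6.H57.MG.growth hD hne h (ρ := ρ) (fun r hr => by
    obtain ⟨z, hz, hzD⟩ := hcirc r hr
    refine ⟨z.arg, ?_⟩
    rw [← hz, T6.H57.MG.pt_arg]
    exact hzD)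
  refine ⟨C, hC, r0, hr0, fun r hr => ?_⟩
  have hrpos : 0 < r := hr0.trans hr
  obtain ⟨t, ht⟩ := hmain r hr
  have hK : IsCompact {z : ℂ | ‖z‖ = r} := by
    have := isCompact_sphere (0 : ℂ) r
    convert this using 1
    ext z
    simp
  have htm : T6.H57.MG.pt r t ∈ {z : ℂ | ‖z‖ = r} := by
    show ‖T6.H57.MG.pt r t‖ = r
    rw [T6.H57.MG.norm_pt, abs_of_pos hrpos]
  obtain ⟨z, hz, hzmax⟩ := hK.exists_isMaxOn ⟨_, htm⟩ (T6.H57.MG.ut_cont h).continuousOn
  have h1 : C * √r ≤ T6.H57.MG.ut D u z := ht.trans (hzmax htm)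
  have h2 : 0 < T6.H57.MG.ut D u z := lt_of_lt_of_le (by positivity) h1
  have hzD : z ∈ D := by
    by_contra hc
    rw [T6.H57.MG.ut_not_mem hc] at h2
    exact lt_irrefl _ h2
  rw [T6.H57.MG.ut_mem hzD] at h1
  refine ⟨u z, ⟨⟨z, ⟨hzD, hz⟩, rfl⟩, ?_⟩, h1⟩
  rintro _ ⟨w, ⟨hwD, hw⟩, rfl⟩
  have := hzmax hw
  simp only [Set.mem_ofPred_eq] at this
  rwa [T6.H57.MG.ut_mem hwD, T6.H57.MG.ut_mem hzD] at this

/-- For every unbounded domain `D` bounded by a Jordan arc and every positive solution `u` of the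
minimal surface equation in `D` vanishing on the boundary, `M(r) ≥ C √r` for large `r`. -/
theorem result :
    ∀ γ : ℝ → ℂ, IsJordanArc γ → ∀ D : Set ℂ, IsOpen D → IsConnected D →
      ¬ Bornology.IsBounded D → frontier D = range γ →
      ∀ u : ℂ → ℝ, IsSolution D u → HasSqrtGrowth D u := by
  intro γ hγ D hD hconn _ hfr u hu
  refine general D hD hconn.nonempty ‖γ 0‖ (fun r hr => ?_) u hu
  obtain ⟨t, ht⟩ : r ∈ range (fun t => ‖γ t‖) := by
    apply mem_range_of_exists_le_of_exists_ge hγ.cont.norm ⟨0, hr⟩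
    exact (hγ.top.eventually_ge_atTop r).exists
  refine ⟨γ t, ht, fun hmem => ?_⟩
  have h1 : γ t ∈ frontier D := by
    rw [hfr]
    exact mem_range_self t
  rw [hD.frontier_eq] at h1
  exact h1.2 hmem

end Pool.Agent.Results.MP_41eeae_an.SquareRootGrowth
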